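import Pool.Agent.H62.Hsc4

namespace Pool.Agent.Results.MP_51e3d2_lc.Dec
open Pool.Agent.H62.Hsc

theorem result : ∃ f : Code → Bool, Computable f ∧
    ∀ (H : Type) [HeytingAlgebra H] (n : ℕ) (e : Fin n ≃ H),
      (f (code e) = true ↔ Primitive (QGen (heyt H))) ∧
      (f (code e) = true ↔ HSC (consA (heyt H))) := by
  obtain ⟨f, hf, h⟩ := dec_of_pr (p_crit (U := fun c : Code => List.range c.1) p_algN (by fun_prop))
  exact ⟨f, hf, fun H _ n e => ⟨(h _).trans (prim_code e).symm, (h _).trans (hsc_code e).symm⟩⟩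

end Pool.Agent.Results.MP_51e3d2_lc.Dec
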